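import Mathlib
import Pool.Agent.H808R2.AH.Problem
import Pool.Agent.Y773.SM.Fin

/-!
# MP_039ae7_nt: the spacing probability `p(5/2)` under the Alternative Hypothesis

The conditions (a)-(c) do not determine `p(5/2)`, in a strong form.  There is an interval
`[c - κ, c + κ]`, `κ > 0`, such that for ALL `a ≤ b` in it some sequence of the class `𝒮` has
`p₋(5/2) = a` and `p₊(5/2) = b`: `p(5/2)` exists and takes every value of an interval on `𝒮`, and it
need not exist (so both alternatives of the negated form of the question hold, with a full triangle of
pairs).  Moreover all these sequences lie in `(1/2) ℕ`, and ALL their correlations of order at most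
five (not only those seen by the test functions of condition (c)) are those of the sine process on
the half-integers: for `n ≤ 4` and distinct nonzero integers `y_i` the proportion of the `j` for which
`x_j + y_1/2, ..., x_j + y_n/2` are terms of the sequence is `2^(-n) W_(n+1)(0, y_1/2, ..., y_n/2)`.
So the complete knowledge of the correlations of order `≤ 5`, together with (a)-(c), does not
determine `p(5/2)`, and this is best possible: `p(5/2)` is a linear combination of correlations of
order `≤ 6` by inclusion and exclusion.

Proof.  The starting files `Pool.Agent.H808R2.AH` tilt the discrete circular ensemble of `N` points on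
`2N` sites by a six-body interaction with far Fourier support and glue samples on growing rings.
New here: the tilt does not change the probability that five given sites are occupied (the spins of
the even sites have no correlation with fewer odd sites than spins); the strength of the tilt is
chosen on every ring such that the frequency of the pattern `100001` is any prescribed number of an
interval; and the gluing theorem is extended to the averages at the ends of the blocks, so that the
frequency can be made to oscillate between `a` and `b`.
-/

set_option autoImplicit false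

namespace Pool.Agent.Results.MP_039ae7_nt.IntervalOfValues

open Pool.Agent.H808R2.AH
open Finset Filter Topology

/-- the proportion of the `j < M` for which all the numbers `x_j + y_i / 2` are terms of the sequence -/
noncomputable def corr {n : ℕ} (x : ℕ → ℝ) (y : Fin n → ℤ) (M : ℕ) : ℝ :=
  open Classical in (#{j ∈ range M | ∀ i, ∃ l, x l = x j + (y i : ℝ) / 2} : ℝ) / M

/-- There is an interval `[c - κ, c + κ]` such that all pairs `a ≤ b` in it are pairs
`(p₋(5/2), p₊(5/2))` of sequences of the class `𝒮` with the same correlations of order at most five;
in particular (a)-(c) do not determine `p(5/2)`. -/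
theorem result :
    (∃ c κ : ℝ, 0 < κ ∧ ∀ a b : ℝ, c - κ ≤ a → a ≤ b → b ≤ c + κ →
      ∃ x : ℕ → ℝ, InS x ∧ StrictMono x ∧ (∀ j, ∃ m : ℕ, x j = (m : ℝ) / 2) ∧
        (∀ n : ℕ, n ≤ 4 → ∀ y : Fin n → ℤ, Function.Injective y → (∀ i, y i ≠ 0) →
          Tendsto (corr x y) atTop (𝓝 ((1 / 2) ^ n * W (Fin.cons 0 fun i => (y i : ℝ) / 2)))) ∧
        pMinus x (5 / 2) = a ∧ pPlus x (5 / 2) = b) ∧
    ¬ Determined (5 / 2) := by
  obtain ⟨c, hc⟩ := J3_pat
  obtain ⟨κ, hκ, h⟩ := Pool.Agent.Y773.SM.exists_seq hc
  refine ⟨⟨c, κ, hκ, h⟩, ?_⟩
  rintro ⟨v, hv⟩
  obtain ⟨x, hx, -, -, -, h1, h2⟩ := h (c - κ) (c + κ) le_rfl (by linarith) le_rfl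
  have h3 := hv x hx
  rw [h1, h2] at h3
  linarith [h3.1, h3.2]

end Pool.Agent.Results.MP_039ae7_nt.IntervalOfValues
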